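import Pool.Agent.R624.EDeg

/-!
# A telograph-cototal degree which is not `n`-cylinder-cototal for any `n`

Problem MP_2b9a36_lc, Q1, answered in the negative.

Proof.  Let `g` be sufficiently Cohen generic in `ℕ → ℕ`, and let `N x` be the join of the complement
of the graph of `x` and of `TGraph 2 x`.  Suppose that the degree of `N g` is the join of `k`
cylinder-cototal degrees, given by functions `h i`, via operators `Ψ i` and `Φ`.  For `n` beyond the
finite part of `g` which forces some closed conditions, with `g n = 0`, let `g[n]` be `g` with the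
value at `n` replaced by `1`.  The sets `N g` and `N (g[n])` are distinguished by some `Ψ i`.  Given
such numbers `n_l` with different indices `i_l` for `l < j`, the same holds for `n` much
larger with an index `i` different from all `i_l`: let `g'` be `g[n]` with the values at all `n_l`
replaced by a large number.  Then `N g'` is close to `N (g[n][n_l])` for every `l`, therefore the path
computed by `Ψ (i_l)` from `g'` has left the path `h (i_l)` at the place where the paths for `g` and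
`g[n_l]` split, and it is of no use to tell `g'` apart from `g`.  So there are more than `k`
different indices.
-/

set_option autoImplicit false

namespace Pool.Agent.Results.MP_2b9a36_lc.TelographNotCylinder

open Pool.Agent.R624.EDeg

/-! ### Definitions used in the statement -/

/-- The graph of `g`. -/
def Graph (g : ℕ → ℕ) : Set ℕ := {z | ∃ n, z = Nat.pair n (g n)}

/-- The part of the graph of `g` where the values are at least `b`. -/
def TGraph (b : ℕ) (g : ℕ → ℕ) : Set ℕ := {z | ∃ n, b ≤ g n ∧ z = Nat.pair n (g n)}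

/-- The initial segment of `g` of length `n`. -/
def seg (g : ℕ → ℕ) (n : ℕ) : List ℕ := (List.range n).map g

/-- The set of (the codes of) the initial segments of `g`. -/
def CGraph (g : ℕ → ℕ) : Set ℕ := {z | ∃ n, z = Encodable.encode (seg g n)}

/-- The degree is telograph-cototal. -/
def IsTelographCototal (a : EDegree) : Prop :=
  ∃ (g : ℕ → ℕ) (b : ℕ), a = deg (join (Graph g)ᶜ (TGraph b g))

/-- The degree is cylinder-cototal. -/
def IsCylinderCototal (a : EDegree) : Prop := ∃ g : ℕ → ℕ, a = deg (CGraph g)ᶜ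

/-- The degree is `n`-cylinder-cototal: it is the join of `n` cylinder-cototal degrees. -/
def IsNCylinderCototal (n : ℕ) (a : EDegree) : Prop :=
  ∃ c : Fin n → EDegree, (∀ i, IsCylinderCototal (c i)) ∧ IsLUB (Set.range c) a

/-! ### Genericity -/

/-- `x'` agrees with `x` below `b`. -/
def Agree (b : ℕ) (x x' : ℕ → ℕ) : Prop := ∀ i < b, x' i = x i

/-- open sets of Baire space -/
def Op (O : Set (ℕ → ℕ)) : Prop := ∀ x ∈ O, ∃ b, ∀ x', Agree b x x' → x' ∈ O

theorem isOpen_cyl (b : ℕ) (x : ℕ → ℕ) : IsOpen {x' : ℕ → ℕ | Agree b x x'} := by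
  have h : {x' : ℕ → ℕ | Agree b x x'} = ⋂ i ∈ Finset.range b, (fun x' : ℕ → ℕ => x' i) ⁻¹' {x i} := by
    ext x'
    simp [Agree]
  rw [h]
  exact isOpen_biInter_finset fun i _ => (isOpen_discrete _).preimage (continuous_apply i)

theorem Op.isOpen {O : Set (ℕ → ℕ)} (hO : Op O) : IsOpen O := by
  rw [isOpen_iff_forall_mem_open]
  intro x hx
  obtain ⟨b, hb⟩ := hO x hx
  exact ⟨{x' | Agree b x x'}, fun x' hx' => hb x' hx', isOpen_cyl b x, fun i _ => rfl⟩

theorem exists_cyl {O : Set (ℕ → ℕ)} (hO : IsOpen O) {x : ℕ → ℕ} (hx : x ∈ O) :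
    ∃ b, ∀ x', Agree b x x' → x' ∈ O := by
  obtain ⟨I, u, h1, h2⟩ := isOpen_pi_iff.1 hO x hx
  refine ⟨I.sup id + 1, fun x' hx' => h2 ?_⟩
  intro i hi
  rw [hx' i (Nat.lt_succ_of_le (Finset.le_sup (f := id) hi))]
  exact (h1 i hi).2

theorem exists_generic (𝒪 : Set (Set (ℕ → ℕ))) (hc : 𝒪.Countable) (hO : ∀ O ∈ 𝒪, Op O) :
    ∃ g : ℕ → ℕ, (∀ O ∈ 𝒪, g ∈ O ∨ ∃ b, ∀ x, Agree b g x → x ∉ O) ∧ ∀ b, ∃ n ≥ b, g n = 0 := by
  have : Countable 𝒪 := hc.to_subtype
  have h1 : ∀ i : 𝒪 ⊕ ℕ, IsOpen (Sum.elim (fun O : 𝒪 => (O : Set (ℕ → ℕ)) ∪ interior (O : Set (ℕ → ℕ))ᶜ)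
      (fun b : ℕ => {x : ℕ → ℕ | ∃ n ≥ b, x n = 0}) i) := by
    rintro (O | b)
    · exact (hO O O.2).isOpen.union isOpen_interior
    · refine Op.isOpen ?_
      rintro x ⟨n, hn, hx⟩
      exact ⟨n + 1, fun x' hx' => ⟨n, hn, by rw [hx' n (Nat.lt_succ_self n), hx]⟩⟩
  have h2 : ∀ i : 𝒪 ⊕ ℕ, Dense (Sum.elim (fun O : 𝒪 => (O : Set (ℕ → ℕ)) ∪ interior (O : Set (ℕ → ℕ))ᶜ)
      (fun b : ℕ => {x : ℕ → ℕ | ∃ n ≥ b, x n = 0}) i) := by
    rintro (O | b)
    · intro x
      by_cases hx : x ∈ closure (O : Set (ℕ → ℕ))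
      · exact closure_mono Set.subset_union_left hx
      · refine subset_closure (Or.inr ?_)
        rw [interior_compl]
        exact hx
    · rw [dense_iff_inter_open]
      rintro U hU ⟨x, hx⟩
      obtain ⟨c, hc⟩ := exists_cyl hU hx
      refine ⟨Function.update x (max b c) 0, hc _ ?_, max b c, le_max_left _ _, by simp⟩
      intro i hi
      rw [Function.update_of_ne]
      have := le_max_right b c
      omega
  obtain ⟨g, hg⟩ := (dense_iInter_of_isOpen h1 h2).nonempty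
  rw [Set.mem_iInter] at hg
  refine ⟨g, fun O hOO => ?_, fun b => hg (Sum.inr b)⟩
  rcases hg (Sum.inl ⟨O, hOO⟩) with h | h
  · exact Or.inl h
  · right
    obtain ⟨b, hb⟩ := exists_cyl isOpen_interior h
    exact ⟨b, fun x hx => interior_subset (hb x hx)⟩

/-! ### The point and its neighbourhoods -/

/-- the set of which the degree is considered -/
def N (x : ℕ → ℕ) : Set ℕ := join (Graph x)ᶜ (TGraph 2 x)

theorem even_N {x : ℕ → ℕ} {a b : ℕ} : 2 * Nat.pair a b ∈ N x ↔ x a ≠ b := by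
  constructor
  · rintro (⟨n, hn, h⟩ | ⟨n, -, h⟩)
    · intro hab
      apply hn
      have h1 : n = Nat.pair a b := by omega
      exact ⟨a, by rw [h1, hab]⟩
    · omega
  · intro h
    refine Or.inl ⟨Nat.pair a b, ?_, rfl⟩
    rintro ⟨n, hn⟩
    obtain ⟨rfl, rfl⟩ := Nat.pair_eq_pair.1 hn
    exact h rfl

theorem odd_N {x : ℕ → ℕ} {a b : ℕ} : 2 * Nat.pair a b + 1 ∈ N x ↔ 2 ≤ b ∧ x a = b := by
  constructor
  · rintro (⟨n, -, h⟩ | ⟨n, ⟨m, hm, rfl⟩, h⟩)
    · omega
    · have h1 : Nat.pair a b = Nat.pair m (x m) := by omega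
      obtain ⟨rfl, rfl⟩ := Nat.pair_eq_pair.1 h1
      exact ⟨hm, rfl⟩
  · rintro ⟨h1, rfl⟩
    exact Or.inr ⟨Nat.pair a (x a), ⟨a, h1, rfl⟩, rfl⟩

theorem cases_N (d : ℕ) : ∃ a b, d = 2 * Nat.pair a b ∨ d = 2 * Nat.pair a b + 1 := by
  rcases Nat.even_or_odd' d with ⟨k, rfl | rfl⟩
  · exact ⟨k.unpair.1, k.unpair.2, Or.inl (by rw [Nat.pair_unpair])⟩
  · exact ⟨k.unpair.1, k.unpair.2, Or.inr (by rw [Nat.pair_unpair])⟩

theorem agree_N {d : ℕ} : ∃ b, ∀ x x', Agree b x x' → (d ∈ N x ↔ d ∈ N x') := by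
  obtain ⟨a, c, rfl | rfl⟩ := cases_N d
  · exact ⟨a + 1, fun x x' h => by rw [even_N, even_N, h a (Nat.lt_succ_self a)]⟩
  · exact ⟨a + 1, fun x x' h => by rw [odd_N, odd_N, h a (Nat.lt_succ_self a)]⟩

theorem agree_fin {S : Set ℕ} (hS : S.Finite) {x : ℕ → ℕ} (h : S ⊆ N x) :
    ∃ b, ∀ x', Agree b x x' → S ⊆ N x' := by
  induction S, hS using Set.Finite.induction_on with
  | empty => exact ⟨0, fun _ _ => Set.empty_subset _⟩
  | insert _ _ ih =>
    rename_i d S _ _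
    rw [Set.insert_subset_iff] at h
    obtain ⟨b, hb⟩ := ih h.2
    obtain ⟨c, hc⟩ := agree_N (d := d)
    refine ⟨max b c, fun x' hx' => Set.insert_subset_iff.2 ⟨?_, hb x' ?_⟩⟩
    · exact (hc x x' fun i hi => hx' i (lt_of_lt_of_le hi (le_max_right _ _))).1 h.1
    · exact fun i hi => hx' i (lt_of_lt_of_le hi (le_max_left _ _))

/-- replace the values at the elements of `M` by `v` -/
def ov (M : List ℕ) (v : ℕ) (x : ℕ → ℕ) : ℕ → ℕ := fun a => if a ∈ M then v else x a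

theorem ov_N {M : List ℕ} {x : ℕ → ℕ} (hM : ∀ a ∈ M, x a < 2) {d : ℕ} (h : d ∈ N x) :
    ∃ v0, ∀ v ≥ v0, d ∈ N (ov M v x) := by
  obtain ⟨a, c, rfl | rfl⟩ := cases_N d
  · rw [even_N] at h
    refine ⟨c + 1, fun v hv => ?_⟩
    rw [even_N]
    unfold ov
    split_ifs
    · omega
    · exact h
  · rw [odd_N] at h
    refine ⟨0, fun v _ => ?_⟩
    rw [odd_N]
    have ha : a ∉ M := by
      intro ha
      have := hM a ha
      omega
    unfold ov
    rw [if_neg ha]
    exact h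

theorem ov_fin {M : List ℕ} {x : ℕ → ℕ} (hM : ∀ a ∈ M, x a < 2) {S : Set ℕ} (hS : S.Finite)
    (h : S ⊆ N x) : ∃ v0, ∀ v ≥ v0, S ⊆ N (ov M v x) := by
  induction S, hS using Set.Finite.induction_on with
  | empty => exact ⟨0, fun _ _ => Set.empty_subset _⟩
  | insert _ _ ih =>
    rename_i d S _ _
    rw [Set.insert_subset_iff] at h
    obtain ⟨b, hb⟩ := ih h.2
    obtain ⟨c, hc⟩ := ov_N hM h.1
    refine ⟨max b c, fun v hv => Set.insert_subset_iff.2 ⟨hc v ?_, hb v ?_⟩⟩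
    · exact (le_max_right _ _).trans hv
    · exact (le_max_left _ _).trans hv

/-! ### The functionals -/

/-- the strings which have an initial segment enumerated by `Ψ` from `N x` -/
def U (Ψ : Set (ℕ × ℕ)) (x : ℕ → ℕ) : Set (List ℕ) :=
  {τ | ∃ σ, σ <+: τ ∧ Encodable.encode σ ∈ app Ψ (N x)}

theorem U_up {Ψ : Set (ℕ × ℕ)} {x : ℕ → ℕ} {σ τ : List ℕ} (h : σ ∈ U Ψ x) (hst : σ <+: τ) :
    τ ∈ U Ψ x := by
  obtain ⟨ρ, hρ, h⟩ := h
  exact ⟨ρ, hρ.trans hst, h⟩

theorem U_op (Ψ : Set (ℕ × ℕ)) (σ : List ℕ) : Op {x | σ ∈ U Ψ x} := by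
  rintro x ⟨ρ, hρ, u, hu, hD⟩
  obtain ⟨b, hb⟩ := agree_fin (D_finite u) hD
  exact ⟨b, fun x' hx' => ⟨ρ, hρ, u, hu, hb x' hx'⟩⟩

theorem U_ov {Ψ : Set (ℕ × ℕ)} {M : List ℕ} {x : ℕ → ℕ} (hM : ∀ a ∈ M, x a < 2) {σ : List ℕ}
    (h : σ ∈ U Ψ x) : ∃ v0, ∀ v ≥ v0, σ ∈ U Ψ (ov M v x) := by
  obtain ⟨ρ, hρ, u, hu, hD⟩ := h
  obtain ⟨b, hb⟩ := ov_fin hM (D_finite u) hD
  exact ⟨b, fun v hv => ⟨ρ, hρ, u, hu, hb v hv⟩⟩

/-- the join of the sets `U (Ψ i) x` -/
def J {k : ℕ} (Ψ : Fin k → Set (ℕ × ℕ)) (x : ℕ → ℕ) : Set ℕ :=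
  {z | ∃ (i : Fin k) (τ : List ℕ), τ ∈ U (Ψ i) x ∧ z = Nat.pair i (Encodable.encode τ)}

/-- the operator `Φ` enumerates a wrong element -/
def Bad {k : ℕ} (Ψ : Fin k → Set (ℕ × ℕ)) (Φ : Set (ℕ × ℕ)) : Set (ℕ → ℕ) :=
  {x | ∃ m ∈ app Φ (J Ψ x), m ∉ N x}

theorem J_op {k : ℕ} (Ψ : Fin k → Set (ℕ × ℕ)) (z : ℕ) : Op {x | z ∈ J Ψ x} := by
  rintro x ⟨i, τ, h, rfl⟩
  obtain ⟨b, hb⟩ := U_op (Ψ i) τ x h
  exact ⟨b, fun x' hx' => ⟨i, τ, hb x' hx', rfl⟩⟩

theorem J_fin {k : ℕ} {Ψ : Fin k → Set (ℕ × ℕ)} {S : Set ℕ} (hS : S.Finite) {x : ℕ → ℕ}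
    (h : S ⊆ J Ψ x) : ∃ b, ∀ x', Agree b x x' → S ⊆ J Ψ x' := by
  induction S, hS using Set.Finite.induction_on with
  | empty => exact ⟨0, fun _ _ => Set.empty_subset _⟩
  | insert _ _ ih =>
    rename_i d S _ _
    rw [Set.insert_subset_iff] at h
    obtain ⟨b, hb⟩ := ih h.2
    obtain ⟨c, hc⟩ := J_op Ψ d x h.1
    refine ⟨max b c, fun x' hx' => Set.insert_subset_iff.2 ⟨hc x' ?_, hb x' ?_⟩⟩
    · exact fun i hi => hx' i (lt_of_lt_of_le hi (le_max_right _ _))
    · exact fun i hi => hx' i (lt_of_lt_of_le hi (le_max_left _ _))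

theorem Bad_op {k : ℕ} (Ψ : Fin k → Set (ℕ × ℕ)) (Φ : Set (ℕ × ℕ)) : Op (Bad Ψ Φ) := by
  rintro x ⟨m, ⟨u, hu, hD⟩, hm⟩
  obtain ⟨b, hb⟩ := J_fin (D_finite u) hD
  obtain ⟨c, hc⟩ := agree_N (d := m)
  refine ⟨max b c, fun x' hx' => ⟨m, ⟨u, hu, hb x' ?_⟩, ?_⟩⟩
  · exact fun i hi => hx' i (lt_of_lt_of_le hi (le_max_left _ _))
  · rw [← hc x x' fun i hi => hx' i (lt_of_lt_of_le hi (le_max_right _ _))]
    exact hm

/-- two strings are comparable -/
def Comp (σ τ : List ℕ) : Prop := σ <+: τ ∨ τ <+: σ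

/-- one of the two strings is enumerated -/
def O2 (Ψ : Set (ℕ × ℕ)) (σ τ : List ℕ) : Set (ℕ → ℕ) := {x | σ ∈ U Ψ x ∨ τ ∈ U Ψ x}

theorem O2_op (Ψ : Set (ℕ × ℕ)) (σ τ : List ℕ) : Op (O2 Ψ σ τ) := by
  rintro x (h | h)
  · obtain ⟨b, hb⟩ := U_op Ψ σ x h
    exact ⟨b, fun x' hx' => Or.inl (hb x' hx')⟩
  · obtain ⟨b, hb⟩ := U_op Ψ τ x h
    exact ⟨b, fun x' hx' => Or.inr (hb x' hx')⟩

/-- some neighbourhood of the point avoids `O2 Ψ σ τ` for some incomparable strings -/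
def V (Ψ : Set (ℕ × ℕ)) : Set (ℕ → ℕ) :=
  {x | ∃ σ τ, ¬ Comp σ τ ∧ ∃ b, ∀ x', Agree b x x' → x' ∉ O2 Ψ σ τ}

theorem V_op (Ψ : Set (ℕ × ℕ)) : Op (V Ψ) := by
  rintro x ⟨σ, τ, hst, b, hb⟩
  refine ⟨b, fun x' hx' => ⟨σ, τ, hst, b, fun x'' hx'' => hb x'' fun i hi => ?_⟩⟩
  rw [hx'' i hi, hx' i hi]

/-- the points such that the point with the value at `n` replaced by `1` is in `O2 Ψ σ τ` -/
def O3 (Ψ : Set (ℕ × ℕ)) (σ τ : List ℕ) (n : ℕ) : Set (ℕ → ℕ) :=
  {x | Function.update x n 1 ∈ O2 Ψ σ τ}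

theorem agree_update {b n : ℕ} {x x' : ℕ → ℕ} (h : Agree b x x') (v : ℕ) :
    Agree b (Function.update x n v) (Function.update x' n v) := by
  intro i hi
  by_cases hin : i = n
  · subst hin; simp
  · rw [Function.update_of_ne hin, Function.update_of_ne hin, h i hi]

theorem O3_op (Ψ : Set (ℕ × ℕ)) (σ τ : List ℕ) (n : ℕ) : Op (O3 Ψ σ τ n) := by
  intro x hx
  obtain ⟨b, hb⟩ := O2_op Ψ σ τ _ hx
  exact ⟨b, fun x' hx' => hb _ (agree_update hx' 1)⟩

/-- the countable family of the open sets which are to be decided -/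
def Fam : Set (Set (ℕ → ℕ)) :=
  (Set.range fun p : ℕ × List ℕ => {x | p.2 ∈ U (W p.1) x}) ∪
  (Set.range fun p : (Σ k, Fin k → ℕ) × ℕ => Bad (fun i => W (p.1.2 i)) (W p.2)) ∪
  (Set.range fun e : ℕ => V (W e)) ∪
  (Set.range fun p : (ℕ × List ℕ) × (List ℕ × ℕ) => O3 (W p.1.1) p.1.2 p.2.1 p.2.2)

theorem Fam_countable : Fam.Countable :=
  (((Set.countable_range _).union (Set.countable_range _)).union (Set.countable_range _)).union
    (Set.countable_range _)

theorem Fam_op : ∀ O ∈ Fam, Op O := by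
  rintro _ (((⟨p, rfl⟩ | ⟨p, rfl⟩) | ⟨e, rfl⟩) | ⟨p, rfl⟩)
  · exact U_op _ _
  · exact Bad_op _ _
  · exact V_op _
  · exact O3_op _ _ _ _

/-- the point decides all the open sets of the family -/
structure Gen (g : ℕ → ℕ) : Prop where
  u : ∀ e σ, σ ∈ U (W e) g ∨ ∃ b, ∀ x, Agree b g x → σ ∉ U (W e) x
  bad : ∀ k (e : Fin k → ℕ) e', g ∈ Bad (fun i => W (e i)) (W e') ∨
    ∃ b, ∀ x, Agree b g x → x ∉ Bad (fun i => W (e i)) (W e')
  v : ∀ e, g ∈ V (W e) ∨ ∃ b, ∀ x, Agree b g x → x ∉ V (W e)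
  o : ∀ e σ τ n, Function.update g n 1 ∈ O2 (W e) σ τ ∨
    ∃ b, ∀ x, Agree b g x → Function.update x n 1 ∉ O2 (W e) σ τ
  zero : ∀ b, ∃ n ≥ b, g n = 0

theorem exists_gen : ∃ g, Gen g := by
  obtain ⟨g, h1, h2⟩ := exists_generic Fam Fam_countable Fam_op
  refine ⟨g, fun e σ => ?_, fun k e e' => ?_, fun e => ?_, fun e σ τ n => ?_, h2⟩
  · exact h1 _ (Or.inl (Or.inl (Or.inl ⟨(e, σ), rfl⟩)))
  · exact h1 _ (Or.inl (Or.inl (Or.inr ⟨(⟨k, e⟩, e'), rfl⟩)))
  · exact h1 _ (Or.inl (Or.inr ⟨e, rfl⟩))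
  · exact h1 _ (Or.inr ⟨((e, σ), (τ, n)), rfl⟩)

/-- If the strings which are not enumerated from `N g` form a path, then this is almost true
for `g` with the value at a large number replaced by `1`. -/
theorem chain {g : ℕ → ℕ} (hg : Gen g) {e : ℕ} (h : ∀ σ τ, ¬ Comp σ τ → g ∈ O2 (W e) σ τ) :
    ∃ b, ∀ n ≥ b, ∀ σ τ, ¬ Comp σ τ → Function.update g n 1 ∈ O2 (W e) σ τ := by
  have h0 : g ∉ V (W e) := by
    rintro ⟨σ, τ, hst, b, hb⟩
    exact hb g (fun _ _ => rfl) (h σ τ hst)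
  rcases hg.v e with h1 | ⟨b0, hb0⟩
  · exact absurd h1 h0
  refine ⟨b0, fun n hn σ τ hst => ?_⟩
  rcases hg.o e σ τ n with h2 | ⟨b, hb⟩
  · exact h2
  exfalso
  refine hb0 (Function.update g n 1) ?_ ⟨σ, τ, hst, max b (n + 1), fun x' hx' hO => ?_⟩
  · intro i hi
    rw [Function.update_of_ne]
    omega
  · have h3 : Function.update (Function.update x' n (g n)) n 1 = x' := by
      rw [Function.update_idem]
      have h4 : x' n = 1 := by
        rw [hx' n (by omega)]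
        simp
      rw [← h4, Function.update_eq_self]
    refine hb (Function.update x' n (g n)) ?_ (by rw [h3]; exact hO)
    intro i hi
    by_cases hin : i = n
    · subst hin; simp
    · rw [Function.update_of_ne hin, hx' i (by omega), Function.update_of_ne hin]

theorem seg_length (g : ℕ → ℕ) (n : ℕ) : (seg g n).length = n := by simp [seg]

theorem seg_prefix (g : ℕ → ℕ) {m n : ℕ} (h : m ≤ n) : seg g m <+: seg g n := by
  obtain ⟨d, rfl⟩ := Nat.exists_eq_add_of_le h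
  induction d with
  | zero => exact List.prefix_rfl
  | succ d ih =>
    refine (ih (Nat.le_add_right _ _)).trans ?_
    unfold seg
    rw [← Nat.add_assoc, List.range_succ, List.map_append]
    exact List.prefix_append _ _

/-- if the complement of a path is enumerated, then `U` is this complement -/
theorem U_path {Ψ : Set (ℕ × ℕ)} {g h : ℕ → ℕ} (hh : (CGraph h)ᶜ = app Ψ (N g)) (τ : List ℕ) :
    τ ∈ U Ψ g ↔ τ ≠ seg h τ.length := by
  constructor
  · rintro ⟨σ, hσ, h1⟩ h2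
    rw [← hh] at h1
    apply h1
    refine ⟨σ.length, ?_⟩
    have h3 : seg h σ.length <+: τ := by
      rw [h2]
      exact seg_prefix h hσ.length_le
    have h4 : σ = seg h σ.length := by
      have := List.prefix_of_prefix_length_le hσ h3 (by rw [seg_length])
      exact this.eq_of_length (by rw [seg_length])
    rw [← h4]
  · intro h1
    refine ⟨τ, List.prefix_rfl, ?_⟩
    rw [← hh]
    rintro ⟨n, hn⟩
    have h2 : τ = seg h n := Encodable.encode_injective hn
    apply h1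
    have h3 : τ.length = n := by rw [h2, seg_length]
    rw [h3, h2]

/-- a number, an index and a string such that changing the value `0` of `g` at the number to `1`
makes the operator with this index enumerate the string -/
structure Good {k : ℕ} (e : Fin k → ℕ) (g : ℕ → ℕ) (p0 : ℕ) (t : ℕ × Fin k × List ℕ) : Prop where
  ge : p0 ≤ t.1
  zero : g t.1 = 0
  not_mem : t.2.2 ∉ U (W (e t.2.1)) g
  mem : t.2.2 ∈ U (W (e t.2.1)) (Function.update g t.1 1)

theorem exists_bound {α : Type*} (L : List α) (f : α → ℕ) : ∃ B, ∀ t ∈ L, f t ≤ B := by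
  induction L with
  | nil => exact ⟨0, by simp⟩
  | cons a L ih =>
    obtain ⟨B, hB⟩ := ih
    refine ⟨max B (f a), fun t ht => ?_⟩
    rcases List.mem_cons.1 ht with rfl | ht
    · exact le_max_right _ _
    · exact (hB t ht).trans (le_max_left _ _)

theorem step {g : ℕ → ℕ} (hg : Gen g) {k : ℕ} {e : Fin k → ℕ} {e' : ℕ} {h : Fin k → ℕ → ℕ}
    (hΨ : ∀ i, (CGraph (h i))ᶜ = app (W (e i)) (N g))
    (hΦ : N g = app (W e') (J (fun i => W (e i)) g)) {p0 : ℕ}
    (hp0 : ∀ x, Agree p0 g x → x ∉ Bad (fun i => W (e i)) (W e'))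
    (L : List (ℕ × Fin k × List ℕ)) (hL : ∀ t ∈ L, Good e g p0 t) :
    ∃ t, Good e g p0 t ∧ ∀ s ∈ L, s.2.1 ≠ t.2.1 := by
  classical
  have hcomp : ∀ i σ τ, ¬ Comp σ τ → g ∈ O2 (W (e i)) σ τ := by
    intro i σ τ hst
    by_contra hcon
    simp only [O2, Set.mem_ofPred_eq, not_or, U_path (hΨ i), not_not] at hcon
    apply hst
    rcases le_total σ.length τ.length with hle | hle
    · left; rw [hcon.1, hcon.2]; exact seg_prefix _ hle
    · right; rw [hcon.1, hcon.2]; exact seg_prefix _ hle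
  have h1 : ∀ t : ℕ × Fin k × List ℕ, ∃ b, t ∈ L →
      ∀ x, Agree b g x → t.2.2 ∉ U (W (e t.2.1)) x := by
    intro t
    by_cases ht : t ∈ L
    · rcases hg.u (e t.2.1) t.2.2 with h2 | ⟨b, hb⟩
      · exact absurd h2 (hL t ht).not_mem
      · exact ⟨b, fun _ => hb⟩
    · exact ⟨0, fun h => absurd h ht⟩
  have h2 : ∀ t : ℕ × Fin k × List ℕ, ∃ b, t ∈ L →
      ∀ x, Agree b (Function.update g t.1 1) x → t.2.2 ∈ U (W (e t.2.1)) x := by
    intro t
    by_cases ht : t ∈ L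
    · obtain ⟨b, hb⟩ := U_op _ _ _ (hL t ht).mem
      exact ⟨b, fun _ => hb⟩
    · exact ⟨0, fun h => absurd h ht⟩
  choose b1 hb1 using h1
  choose b2 hb2 using h2
  choose b3 hb3 using fun i => chain hg (hcomp i)
  obtain ⟨B1, hB1⟩ := exists_bound L b1
  obtain ⟨B2, hB2⟩ := exists_bound L b2
  obtain ⟨B3, hB3⟩ := exists_bound (List.finRange k) b3
  obtain ⟨B4, hB4⟩ := exists_bound L (fun t => t.1 + 1)
  obtain ⟨n, hn, hgn⟩ := hg.zero (max p0 (max (max B1 B2) (max B3 B4)))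
  have hnp : p0 ≤ n := le_trans (le_max_left _ _) hn
  have hn1 : B1 ≤ n := le_trans (le_trans (le_trans (le_max_left _ _) (le_max_left _ _))
    (le_max_right _ _)) hn
  have hn2 : B2 ≤ n := le_trans (le_trans (le_trans (le_max_right _ _) (le_max_left _ _))
    (le_max_right _ _)) hn
  have hn3 : B3 ≤ n := le_trans (le_trans (le_trans (le_max_left _ _) (le_max_right _ _))
    (le_max_right _ _)) hn
  have hn4 : B4 ≤ n := le_trans (le_trans (le_trans (le_max_right _ _) (le_max_right _ _))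
    (le_max_right _ _)) hn
  set y : ℕ → ℕ := Function.update g n 1 with hy
  set M : List ℕ := L.map Prod.fst with hM
  have hyg : ∀ a, a ≠ n → y a = g a := fun a ha => Function.update_of_ne ha _ _
  have hyn : y n = 1 := Function.update_self _ _ _
  have hagree : ∀ b ≤ n, Agree b g y := fun b hb i hi => hyg i (by omega)
  have hMlt : ∀ a ∈ M, a < n ∧ g a = 0 ∧ p0 ≤ a := by
    intro a ha
    obtain ⟨t, ht, rfl⟩ := List.mem_map.1 ha
    have := hB4 t ht
    exact ⟨by omega, (hL t ht).zero, (hL t ht).ge⟩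
  have hnM : n ∉ M := fun h => absurd (hMlt n h).1 (lt_irrefl n)
  have hyM : ∀ a ∈ M, y a < 2 := by
    intro a ha
    have := hMlt a ha
    rw [hyg a (by omega), this.2.1]
    omega
  obtain ⟨u, hu, hD⟩ : 2 * Nat.pair n 1 ∈ app (W e') (J (fun i => W (e i)) g) := by
    rw [← hΦ, even_N, hgn]
    omega
  -- an element of the axiom is not enumerated infinitely often
  obtain ⟨z, hz, hzf⟩ : ∃ z ∈ D u, ∃ᶠ v in Filter.atTop, z ∉ J (fun i => W (e i)) (ov M v y) := by
    by_contra hcon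
    push Not at hcon
    have h3 : ∀ z ∈ D u, ∀ᶠ v in Filter.atTop, z ∈ J (fun i => W (e i)) (ov M v y) := by
      intro z hz
      exact hcon z hz
    have h4 := (Filter.eventually_all_finite (D_finite u)).2 h3
    obtain ⟨v, hv⟩ := h4.exists
    have h5 : ov M v y ∉ Bad (fun i => W (e i)) (W e') := by
      apply hp0
      intro i hi
      have hiM : i ∉ M := fun h => by have := (hMlt i h).2.2; omega
      unfold ov
      rw [if_neg hiM, hyg i (by omega)]
    apply h5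
    refine ⟨_, ⟨u, hu, hv⟩, ?_⟩
    rw [even_N]
    unfold ov
    rw [if_neg hnM, hyn]
    simp
  obtain ⟨i, τ, hτ, rfl⟩ := hD hz
  have hτf : ∃ᶠ v in Filter.atTop, τ ∉ U (W (e i)) (ov M v y) :=
    hzf.mono fun v hv h => hv ⟨i, τ, h, rfl⟩
  have hev : ∀ x, (∀ a ∈ M, x a < 2) → τ ∈ U (W (e i)) x →
      ∀ᶠ v in Filter.atTop, τ ∈ U (W (e i)) (ov M v x) := by
    intro x hx h
    obtain ⟨v0, hv0⟩ := U_ov hx h
    exact Filter.eventually_atTop.2 ⟨v0, hv0⟩
  have hτy : τ ∉ U (W (e i)) y := by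
    intro h
    obtain ⟨v, hv1, hv2⟩ := (hτf.and_eventually (hev y hyM h)).exists
    exact hv1 hv2
  have hchain : ∀ σ ρ, ¬ Comp σ ρ → y ∈ O2 (W (e i)) σ ρ :=
    hb3 i n ((hB3 i (List.mem_finRange i)).trans hn3)
  set α : List ℕ := seg (h i) τ.length with hα
  have hαlen : α.length = τ.length := by rw [hα, seg_length]
  have hαg : α ∉ U (W (e i)) g := by
    rw [U_path (hΨ i), hαlen]
    exact not_not.2 hα
  have hne : τ ≠ α := (U_path (hΨ i) τ).1 hτ
  have hαy : α ∈ U (W (e i)) y := by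
    have hinc : ¬ Comp α τ := by
      rintro (h | h)
      · exact hne (h.eq_of_length hαlen).symm
      · exact hne (h.eq_of_length hαlen.symm)
    rcases hchain α τ hinc with h | h
    · exact h
    · exact absurd h hτy
  refine ⟨(n, i, α), ⟨hnp, hgn, hαg, hαy⟩, ?_⟩
  rintro ⟨a, i', β⟩ hs hi'
  have hi'' : i' = i := hi'
  subst hi''
  have hβg : β ∉ U (W (e i')) g := (hL _ hs).not_mem
  have hβy : β ∉ U (W (e i')) y := hb1 _ hs y (hagree _ ((hB1 _ hs).trans hn1))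
  have hcmp : Comp β τ := by
    by_contra hcon
    rcases hchain β τ hcon with h | h
    · exact hβy h
    · exact hτy h
  rcases hcmp with hcmp | hcmp
  · -- `β` is an initial segment of `τ`
    have haM : a ∈ M := List.mem_map.2 ⟨_, hs, rfl⟩
    have han : a ≠ n := by
      have := (hMlt a haM).1
      omega
    set x : ℕ → ℕ := Function.update y a 1 with hx
    have hxU : β ∈ U (W (e i')) x := by
      refine hb2 _ hs x ?_
      have h5 : Agree (b2 (a, i', β)) g y := hagree _ ((hB2 _ hs).trans hn2)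
      exact agree_update h5 1
    have hxM : ∀ c ∈ M, x c < 2 := by
      intro c hc
      by_cases hca : c = a
      · rw [hca, hx, Function.update_self]; omega
      · rw [hx, Function.update_of_ne hca]; exact hyM c hc
    have hov : ∀ v, ov M v x = ov M v y := by
      intro v
      funext c
      unfold ov
      by_cases hc : c ∈ M
      · rw [if_pos hc, if_pos hc]
      · rw [if_neg hc, if_neg hc, hx, Function.update_of_ne]
        rintro rfl
        exact hc haM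
    obtain ⟨v0, hv0⟩ := U_ov hxM hxU
    obtain ⟨v, hv1, hv2⟩ := (hτf.and_eventually (Filter.eventually_ge_atTop v0)).exists
    apply hv1
    have := hv0 v hv2
    rw [hov] at this
    exact U_up this hcmp
  · exact hβg (U_up hτ hcmp)

/-- **Answer to Q1 (negative).** There is a telograph-cototal enumeration degree which is not
`n`-cylinder-cototal for any `n`. -/
theorem result : ∃ a : EDegree, IsTelographCototal a ∧ ∀ n ≥ 1, ¬ IsNCylinderCototal n a := by
  obtain ⟨g, hg⟩ := exists_gen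
  refine ⟨deg (N g), ⟨g, 2, rfl⟩, ?_⟩
  rintro k - ⟨c, hc, hlub⟩
  choose h hh using hc
  have h1 : ∀ i, ∃ e, (CGraph (h i))ᶜ = app (W e) (N g) := by
    intro i
    have : deg (CGraph (h i))ᶜ ≤ deg (N g) := by
      rw [← hh i]
      exact hlub.1 ⟨i, rfl⟩
    exact ered_iff.1 this
  choose e he using h1
  have hJ : ∀ z, z ∈ J (fun i => W (e i)) g ↔ ∃ (i : Fin k) (y : ℕ), y ∈ (CGraph (h i))ᶜ ∧
      z = Nat.pair i y := by
    intro z
    constructor
    · rintro ⟨i, τ, hτ, rfl⟩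
      refine ⟨i, _, ?_, rfl⟩
      rw [U_path (he i)] at hτ
      rintro ⟨n, hn⟩
      have h2 : τ = seg (h i) n := Encodable.encode_injective hn
      apply hτ
      have h3 : τ.length = n := by rw [h2, seg_length]
      rw [h3, h2]
    · rintro ⟨i, y, hy, rfl⟩
      refine ⟨i, Denumerable.ofNat (List ℕ) y, ?_, ?_⟩
      · rw [U_path (he i)]
        intro hcon
        apply hy
        refine ⟨(Denumerable.ofNat (List ℕ) y).length, ?_⟩
        rw [← hcon, Denumerable.encode_ofNat]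
      · rw [Denumerable.encode_ofNat]
  have h2 : deg (N g) ≤ deg (J (fun i => W (e i)) g) := by
    apply hlub.2
    rintro _ ⟨i, rfl⟩
    rw [hh i, deg_le]
    refine ered_of_comp (f := fun y => Nat.pair i y) (by fun_prop) fun y => ?_
    rw [hJ]
    constructor
    · exact fun hy => ⟨i, y, hy, rfl⟩
    · rintro ⟨i', y', hy', h3⟩
      obtain ⟨h4, rfl⟩ := Nat.pair_eq_pair.1 h3
      have h5 : i = i' := Fin.ext h4
      rw [h5]
      exact hy'
  obtain ⟨e', he'⟩ := ered_iff.1 (deg_le.1 h2)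
  have hnb : g ∉ Bad (fun i => W (e i)) (W e') := by
    rintro ⟨m, hm, hm'⟩
    rw [he'] at hm'
    exact hm' hm
  rcases hg.bad k e e' with h3 | ⟨p0, hp0⟩
  · exact hnb h3
  have key : ∀ j : ℕ, ∃ L : List (ℕ × Fin k × List ℕ), L.length = j ∧
      (∀ t ∈ L, Good e g p0 t) ∧ (L.map fun t => t.2.1).Nodup := by
    intro j
    induction j with
    | zero => exact ⟨[], rfl, by simp, List.nodup_nil⟩
    | succ j ih =>
      obtain ⟨L, hL1, hL2, hL3⟩ := ih
      obtain ⟨t, ht1, ht2⟩ := step hg he he' hp0 L hL2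
      refine ⟨t :: L, by simp [hL1], ?_, ?_⟩
      · intro s hs
        rcases List.mem_cons.1 hs with rfl | hs
        · exact ht1
        · exact hL2 s hs
      · rw [List.map_cons, List.nodup_cons]
        refine ⟨?_, hL3⟩
        intro hmem
        obtain ⟨s, hs, hst⟩ := List.mem_map.1 hmem
        exact ht2 s hs hst
  obtain ⟨L, hL1, -, hL3⟩ := key (k + 1)
  have h4 := hL3.length_le_card
  rw [List.length_map, hL1, Fintype.card_fin] at h4
  omega

end Pool.Agent.Results.MP_2b9a36_lc.TelographNotCylinder
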